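import Pool.Agent.Lib.MP_05c1d7_co.Main

namespace Pool.Agent.Results.MP_05c1d7_co.AlmostAllFarPairs
open Pool.Agent.Lib.MP_05c1d7_co

/-- On the antidiagonal `s + t = N`, among the pairs `(s, N - s)` with `1 ≤ s ≤ S ≤ N / 4`, the
proportion of those at which the diagonal conjecture fails against some admissible `(s₁, t₁)` is
at most `142 * log₂ log₂ (N / S) / log₂ (N / S)` (all logarithms and the quotient rounded down). -/
theorem result : ∀ S N : ℕ, 1 ≤ S → 4 * S ≤ N →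
    Set.ncard {s : ℕ | 1 ≤ s ∧ s ≤ S ∧ ∃ s₁ t₁ : ℕ, 1 ≤ s₁ ∧ s₁ ≤ s ∧ N - s ≤ t₁ ∧
        s₁ + t₁ ≤ s + (N - s) ∧ R s (N - s) < R s₁ t₁} * Nat.log 2 (N / S)
      ≤ 142 * S * Nat.log 2 (Nat.log 2 (N / S)) := by
  classical
  intro S N hS hN
  have h := almost_all S N hS hN
  have e : {s : ℕ | 1 ≤ s ∧ s ≤ S ∧ ∃ s₁ t₁ : ℕ, 1 ≤ s₁ ∧ s₁ ≤ s ∧ N - s ≤ t₁ ∧
        s₁ + t₁ ≤ s + (N - s) ∧ R s (N - s) < R s₁ t₁}
      = (((Finset.Icc 1 S).filter (fun s => ¬ DiagAt s (N - s)) : Finset ℕ) : Set ℕ) := by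
    ext s
    simp only [DiagAt, Set.mem_ofPred_eq, Finset.coe_filter, Finset.mem_Icc, not_forall, not_le,
      exists_prop, and_assoc]
  rw [e, Set.ncard_coe_finset]
  convert h

end Pool.Agent.Results.MP_05c1d7_co.AlmostAllFarPairs
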