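import Pool.Agent.Lib.MP_05c1d7_co.Share

namespace Pool.Agent.Results.MP_05c1d7_co.ExplicitShare
open Pool.Agent.Lib.MP_05c1d7_co

/-- On the antidiagonal `s + t = N` there are at least `N / 48 - 3` pairs `(s, N - s)` with
`N / 510 < s ≤ N / 2` at which the diagonal conjecture holds against every admissible
`(s₁, t₁)`. -/
theorem result : ∀ N : ℕ,
    N ≤ 48 * (Set.ncard {s : ℕ | N < 510 * s ∧ 2 * s ≤ N ∧ ∀ s₁ t₁ : ℕ, 1 ≤ s₁ → s₁ ≤ s →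
      N - s ≤ t₁ → s₁ + t₁ ≤ N → R s₁ t₁ ≤ R s (N - s)} + 3) := by
  classical
  intro N
  have h := share N
  have e : {s : ℕ | N < 510 * s ∧ 2 * s ≤ N ∧ ∀ s₁ t₁ : ℕ, 1 ≤ s₁ → s₁ ≤ s →
      N - s ≤ t₁ → s₁ + t₁ ≤ N → R s₁ t₁ ≤ R s (N - s)}
      = (((Finset.Icc (N / 510 + 1) (N / 2)).filter (fun s => DiagAt s (N - s)) : Finset ℕ) :
        Set ℕ) := by
    ext s
    simp only [DiagAt, Set.mem_ofPred_eq, Finset.coe_filter, Finset.mem_Icc]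
    constructor
    · rintro ⟨h1, h2, h3⟩
      exact ⟨⟨by omega, by omega⟩, fun s₁ t₁ a b c d => h3 s₁ t₁ a b c (by omega)⟩
    · rintro ⟨⟨h1, h2⟩, h3⟩
      exact ⟨by omega, by omega, fun s₁ t₁ a b c d => h3 s₁ t₁ a b c (by omega)⟩
  rw [e, Set.ncard_coe_finset]
  convert h

end Pool.Agent.Results.MP_05c1d7_co.ExplicitShare
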