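import Pool.Agent.Lib.MP_05c1d7_co.Main

namespace Pool.Agent.Results.MP_05c1d7_co.FarGapFamily
open Pool.Agent.Lib.MP_05c1d7_co

/-- The diagonal conjecture holds whenever `3 s₂ ≤ t₂` and
`(s₂ - s₁) * log₂ L ≥ 17 * s₂ * log₂ log₂ L` with `L = (s₂ + t₂) / s₂`
(all logarithms and the quotient rounded down). -/
theorem result : ∀ s₁ t₁ s₂ t₂ : ℕ, 1 ≤ s₁ → s₁ ≤ s₂ → 3 * s₂ ≤ t₂ → t₂ ≤ t₁ →
    s₁ + t₁ ≤ s₂ + t₂ →
    17 * s₂ * Nat.log 2 (Nat.log 2 ((s₂ + t₂) / s₂)) ≤ (s₂ - s₁) * Nat.log 2 ((s₂ + t₂) / s₂) →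
    R s₁ t₁ ≤ R s₂ t₂ := by
  intro s₁ t₁ S t₂ h1 h2 h3 h4 h5 hgap
  have hS : 1 ≤ S := h1.trans h2
  set N := S + t₂ with hNdef
  set a := Nat.log 2 (N / S) with ha
  set b := Nat.log 2 a with hb
  have h4' : 4 ≤ N / S := (Nat.le_div_iff_mul_le hS).2 (by omega)
  have ha2 : 2 ≤ a := Nat.le_log_of_pow_le (by norm_num) (by omega)
  have hb1 : 1 ≤ b := Nat.le_log_of_pow_le (by norm_num) (by omega)
  have hNa : 2 ^ a * S ≤ N :=
    (Nat.le_div_iff_mul_le hS).1 (Nat.pow_log_le_self 2 (by omega))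
  have hNa' : N < 2 ^ (a + 1) * S :=
    (Nat.div_lt_iff_lt_mul hS).1 (Nat.lt_pow_succ_log_self (by norm_num) _)
  have hab : a < 2 ^ (b + 1) := Nat.lt_pow_succ_log_self (by norm_num) _
  obtain ⟨u, rfl⟩ : ∃ u, s₁ = u + 1 := ⟨s₁ - 1, by omega⟩
  obtain ⟨d, hd⟩ : ∃ d, S = u + 1 + d := ⟨S - (u + 1), by omega⟩
  have hd' : S - (u + 1) = d := by omega
  rw [hd'] at hgap
  have hbS : S ≤ S * b := Nat.le_mul_of_pos_right _ hb1
  have hd1 : 1 ≤ d := by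
    rcases Nat.eq_zero_or_pos d with h0 | h0
    · rw [h0] at hgap; nlinarith
    · exact h0
  have h17 : 17 * b ≤ a := by
    have : S * (17 * b) ≤ S * a := by
      calc S * (17 * b) = 17 * S * b := by ring
        _ ≤ d * a := hgap
        _ ≤ S * a := Nat.mul_le_mul_right _ (by omega)
    exact le_of_mul_le_mul_left this hS
  obtain ⟨c, hc⟩ : ∃ c, c + 3 * b + 8 = a := ⟨a - 3 * b - 8, by omega⟩
  have hlow := lower_pow a b c S N S ((a + 1) * u + 2 * S) hNa hab hc (by omega) (by omega) le_rfl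
    (by omega) (by
      have e1 : a * S = c * S + 3 * (S * b) + 8 * S := by rw [← hc]; ring
      have e2 : a * S = a * u + a + d * a := by rw [hd]; ring
      nlinarith)
  have hNS : N - S = t₂ := by omega
  rw [hNS] at hlow
  obtain ⟨v, hv⟩ : ∃ v, t₁ = v + 1 := ⟨t₁ - 1, by omega⟩
  have b1 := sum_choose_le N u (2 ^ (a + 1)) S Nat.one_le_two_pow (by rw [mul_comm]; omega)
  have b3 : 3 ^ S ≤ (2 ^ 2) ^ S := Nat.pow_le_pow_left (by norm_num) _
  calc R (u + 1) t₁ ≤ (u + v).choose u := by rw [hv]; exact R_le_choose u v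
    _ ≤ N.choose u := Nat.choose_le_choose _ (by omega)
    _ ≤ ∑ i ∈ Finset.range (u + 1), N.choose i :=
        Finset.single_le_sum (f := fun i => N.choose i) (fun _ _ => Nat.zero_le _)
          (Finset.self_mem_range_succ u)
    _ ≤ (2 ^ (a + 1)) ^ u * (2 ^ 2) ^ S := b1.trans (Nat.mul_le_mul_left _ b3)
    _ = 2 ^ ((a + 1) * u + 2 * S) := by rw [← pow_mul, ← pow_mul, ← pow_add]
    _ ≤ _ := hlow.le

end Pool.Agent.Results.MP_05c1d7_co.FarGapFamily
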