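import Pool.Agent.Lib.MP_05c1d7_co.Drc2

namespace Pool.Agent.Results.MP_05c1d7_co.NearOneFactorInCone
open Pool.Agent.Lib.MP_05c1d7_co

/-- There are constants `C` and `L₀` such that, whenever `s₁ ≤ s₂`, `t₂ ≤ t₁` and
`L₀ * s₂ ≤ t₂`, one has `R(s₁,t₁) ≤ (1 + (log L) ^ C / L) ^ (t₁ - t₂) * R(s₂,t₂)`
with `L = t₂ / s₂`. -/
theorem result : ∃ C L₀ : ℕ, ∀ s₁ t₁ s₂ t₂ : ℕ,
    1 ≤ s₁ → s₁ ≤ s₂ → L₀ * s₂ ≤ t₂ → t₂ ≤ t₁ →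
    (R s₁ t₁ : ℝ) ≤ (1 + Real.log ((t₂ : ℝ) / (s₂ : ℝ)) ^ C / ((t₂ : ℝ) / (s₂ : ℝ))) ^ (t₁ - t₂)
      * (R s₂ t₂ : ℝ) := by
  obtain ⟨K, hK⟩ : ∃ K : ℕ, 310 ≤ K := ⟨_, le_rfl⟩
  refine ⟨K, 2 ^ (2 ^ K), fun s₁ t₁ s₂ t₂ hs h12 hc ht => ?_⟩
  have hs2 : 1 ≤ s₂ := hs.trans h12
  have ht2 : 1 ≤ t₂ := le_trans (le_trans hs2 (Nat.le_mul_of_pos_left _ (by positivity))) hc
  have hs1' : (0 : ℝ) < s₁ := by exact_mod_cast hs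
  have hs2' : (0 : ℝ) < s₂ := by exact_mod_cast hs2
  have hx : (2 : ℝ) ^ (2 ^ K) ≤ (t₂ : ℝ) / s₂ := by
    rw [le_div_iff₀ hs2']; exact_mod_cast hc
  have hη : 0 ≤ Real.log ((t₂ : ℝ) / (s₂ : ℝ)) ^ K / ((t₂ : ℝ) / (s₂ : ℝ)) := by
    have := Real.log_nonneg (le_trans (one_le_pow₀ (by norm_num)) hx)
    positivity
  induction t₁, ht using Nat.le_induction with
  | base =>
    simp only [Nat.sub_self, pow_zero, one_mul, Nat.cast_le]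
    exact R_mono_left hs ht2 h12
  | succ t ht ih =>
    have h2 := ratio_polylog hK s₁ t hs (le_trans (Nat.mul_le_mul_left _ h12) (hc.trans ht))
    have h3 := log_pow_div_anti (K := K) (by omega) hx (z := (t : ℝ) / s₁) (by gcongr)
    rw [show t + 1 - t₂ = (t - t₂) + 1 by omega, pow_succ]
    generalize Real.log ((t₂ : ℝ) / (s₂ : ℝ)) ^ K / ((t₂ : ℝ) / (s₂ : ℝ)) = η at *
    calc (R s₁ (t + 1) : ℝ) ≤ _ := h2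
      _ ≤ (1 + η) * ((1 + η) ^ (t - t₂) * (R s₂ t₂ : ℝ)) := by gcongr
      _ = _ := by ring

end Pool.Agent.Results.MP_05c1d7_co.NearOneFactorInCone
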